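import Pool.Agent.Lib.MP_28303a_al.NT.ER.Defs

/-! # The base case of the relative theorem -/

set_option autoImplicit false
set_option linter.unusedSectionVars false
set_option linter.unusedVariables false

namespace Pool.Agent.NegK.NT

universe u

open CategoryTheory Limits Pretriangulated Pool.Agent.NegK.NT.ER

namespace ER91

/-- Closure under images. -/
theorem image {k : Type u} [Ring k] {Γ : Type u} [Group Γ] {B : Type u} [MulAction Γ B]
    {P : Pre Γ B} {AA : Fn k P → Prop} (hA : RegCls0 AA) {M N : Fn k P} (f : M ⟶ N) (hM : AA M)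
    (hN : AA N) : AA (image f) := by
  have h1 : AA (cokernel f) := hA.coker M N f hM hN
  have h2 : AA (kernel (cokernel.π f)) := hA.ker _ _ _ hN h1
  exact hA.iso _ _ ⟨Abelian.imageIsoImage f⟩ h2

/-- The homology of perfect complexes is in the class. -/
theorem haa0 {k : Type u} [Ring k] {Γ : Type u} [Group Γ] {B : Type u} [MulAction Γ B]
    {P : Pre Γ B} {AA : Fn k P → Prop} (hA : RegCls0 AA) (X : KK k P) (hX : Per X) (n : ℤ) :
    AA ((hq k P n).obj X) := by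
  obtain ⟨E, hE, ⟨ρ⟩⟩ := hX
  let C : CochainComplex (Fn k P) ℤ := (Loc.ev.mapHomologicalComplex (ComplexShape.up ℤ)).obj E
  have hC : ∀ n, AA (C.X n) := fun n => hA.fin (E.X n) (hE.fin n)
  have hcy : AA (C.cycles n) := by
    have h1 := hA.ker _ _ (C.d n (n + 1)) (hC n) (hC (n + 1))
    exact hA.iso _ _ ⟨IsLimit.conePointUniqueUpToIso (kernelIsKernel (C.d n (n + 1)))
      (C.cyclesIsKernel n (n + 1) (by simp))⟩ h1
  have hho : AA (C.homology n) := by
    have h1 := hA.coker _ _ (C.toCycles (n - 1) n) (hC (n - 1)) hcy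
    exact hA.iso _ _ ⟨IsColimit.coconePointUniqueUpToIso (cokernelIsCokernel (C.toCycles (n - 1) n))
      (C.homologyIsCokernel (n - 1) n (by simp))⟩ h1
  have hq' : AA ((hq k P n).obj (qo E)) := hA.iso _ _ ⟨((hqI k P n).app E).symm⟩ hho
  let ρ' := ρ.map (hq k P n)
  have h2 := image hA (ρ'.r ≫ ρ'.i) hq' hq'
  have : StrongEpi ρ'.r := by
    have : IsSplitEpi ρ'.r := ⟨⟨⟨ρ'.i, ρ'.retract⟩⟩⟩
    exact strongEpi_of_epi _
  have : Mono ρ'.i := by
    have : IsSplitMono ρ'.i := ⟨⟨⟨ρ'.r, ρ'.retract⟩⟩⟩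
    infer_instance
  exact hA.iso _ _ ⟨(image.isoStrongEpiMono ρ'.r ρ'.i rfl).symm⟩ h2

/-- Resolutions in every degree. -/
theorem resn0 {k : Type u} [Ring k] {Γ : Type u} [Group Γ] {B : Type u} [MulAction Γ B]
    {P : Pre Γ B} (n : ℤ) (M : Fn k P) (hM : Rsl M) :
    ∃ R : KK k P, Per R ∧ Nonempty ((hq k P n).obj R ≅ M) ∧
      ∀ m : ℤ, m ≠ n → IsZero ((hq k P m).obj R) := by
  obtain ⟨R, hR, ⟨e⟩, h0⟩ := hM
  refine ⟨R⟦-n⟧, per_shift hR (-n), ?_, fun m hm => ?_⟩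
  · obtain ⟨e1⟩ := H91.hq_shift R (-n) n 0 (by ring)
    exact ⟨e1 ≪≫ e⟩
  · obtain ⟨e1⟩ := H91.hq_shift R (-n) m (-n + m) rfl
    exact (h0 (-n + m) (by
      intro h
      exact hm (by linarith))).of_iso e1

/-- Devissage: perfect objects whose homology has finite resolutions. -/
theorem dev0 {k : Type u} [Ring k] {Γ : Type u} [Group Γ] {B : Type u} [MulAction Γ B]
    {P : Pre Γ B} (Φ : KK k P → Prop) (hΦ0 : ∀ X : KK k P, IsZero X → Φ X)
    (hΦt : ∀ T ∈ distTriang (KK k P), Φ T.obj₁ → Φ T.obj₃ → Φ T.obj₂) (X : KK k P) (hX : Per X)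
    (hr : ∀ n, Rsl ((hq k P n).obj X))
    (hΦ : ∀ (n : ℤ) (R : KK k P), Per R → Nonempty ((hq k P n).obj R ≅ (hq k P n).obj X) →
      (∀ m, m ≠ n → IsZero ((hq k P m).obj R)) → Φ R) : Φ X := by
  have key : ∀ (N : ℕ) (b : ℤ) (X : KK k P), Per X → (∀ n, b < n → IsZero ((hq k P n).obj X)) →
      (∀ n, n ≤ b - N → IsZero ((hq k P n).obj X)) →
      (∀ n, n ≤ b → Rsl ((hq k P n).obj X)) →
      (∀ (n : ℤ) (R : KK k P), Per R → Nonempty ((hq k P n).obj R ≅ (hq k P n).obj X) →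
        (∀ m, m ≠ n → IsZero ((hq k P m).obj R)) → Φ R) → Φ X := by
    intro N
    induction N with
    | zero =>
      intro b X hX h1 h2 _ _
      refine hΦ0 X (consS k Γ B P X hX fun n => ?_)
      rcases lt_or_ge b n with h | h
      · exact h1 n h
      · exact h2 n (by simpa using h)
    | succ N ih =>
      intro b X hX h1 h2 hrs h3
      obtain ⟨R, hR, ⟨e⟩, hR0⟩ := resn0 b _ (hrs b le_rfl)
      obtain ⟨f, hf⟩ := topS k Γ B P X R b hX hR h1 hR0 e.inv
      obtain ⟨C, g, δ', hT⟩ := distinguished_cocone_triangle₁ f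
      have hC : Per C := (perS k Γ B P).2 _ (inv_rot_of_distTriang _ hT)
        ((perS k Γ B P).1 R (-1) hR) hX
      have hiso : IsIso ((hq k P b).map f) := by rw [hf]; infer_instance
      have hC1 : ∀ n, b ≤ n → IsZero ((hq k P n).obj C) := by
        intro n hn
        obtain ⟨δ, ⟨w1, ex1⟩, ⟨w2, ex2⟩, ⟨w3, ex3⟩⟩ := H92.les k P _ hT (n - 1) n (by ring)
        refine ex3.isZero_X₂ ?_ ?_
        · rcases eq_or_ne (n - 1) b with h | h
          · subst h
            have : Epi ((hq k P (n - 1)).map f) := inferInstance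
            exact (ex2.epi_f_iff).1 this
          · exact (hR0 _ h).eq_of_src _ _
        · rcases eq_or_lt_of_le hn with h | h
          · subst h
            have h5 : g ≫ f = 0 := comp_distTriang_mor_zero₁₂ _ hT
            have h4 : (hq k P b).map g ≫ (hq k P b).map f = 0 := by
              rw [← Functor.map_comp, h5, Functor.map_zero]
            exact (cancel_mono ((hq k P b).map f)).1 (h4.trans zero_comp.symm)
          · exact (h1 n h).eq_of_tgt _ _
      have hC2 : ∀ n, n < b → Nonempty ((hq k P n).obj C ≅ (hq k P n).obj X) := by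
        intro n hn
        obtain ⟨δ, ⟨w1, ex1⟩, ⟨w2, ex2⟩, ⟨w3, ex3⟩⟩ := H92.les k P _ hT (n - 1) n (by ring)
        obtain ⟨δ', ⟨w1', ex1'⟩, -⟩ := H92.les k P _ hT n (n + 1) rfl
        have hm : Mono ((hq k P n).map g) :=
          (ex3.mono_g_iff).2 ((hR0 (n - 1) (by omega)).eq_of_src _ _)
        have he : Epi ((hq k P n).map g) :=
          (ex1'.epi_f_iff).2 ((hR0 n (by omega)).eq_of_tgt _ _)
        have : IsIso ((hq k P n).map g) := isIso_of_mono_of_epi _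
        exact ⟨asIso ((hq k P n).map g)⟩
      have hΦC : Φ C := by
        refine ih (b - 1) C hC (fun n hn => hC1 n (by omega)) (fun n hn => ?_)
          (fun n hn => ?_) fun n R' hR' hn hR'0 => ?_
        · obtain ⟨e'⟩ := hC2 n (by omega)
          exact (h2 n (by push_cast; omega)).of_iso e'
        · obtain ⟨e'⟩ := hC2 n (by omega)
          obtain ⟨R1, hR1, ⟨e1⟩, h01⟩ := hrs n (by omega)
          exact ⟨R1, hR1, ⟨e1 ≪≫ e'.symm⟩, h01⟩
        · obtain ⟨e'⟩ := hn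
          rcases lt_or_ge n b with h | h
          · obtain ⟨e''⟩ := hC2 n h
            exact h3 n R' hR' ⟨e' ≪≫ e''⟩ hR'0
          · refine hΦ0 R' (consS k Γ B P R' hR' fun m => ?_)
            rcases eq_or_ne m n with rfl | h4
            · exact (hC1 m h).of_iso e'
            · exact hR'0 m h4
      exact hΦt _ hT hΦC (h3 b R hR ⟨e⟩ hR0)
  obtain ⟨a, b, hab⟩ := H91.bdd k Γ B P X hX
  refine key (b - a + 1).toNat b X hX (fun n hn => hab n (Or.inr hn)) (fun n hn => ?_)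
    (fun n _ => hr n) hΦ
  refine hab n ?_
  rcases lt_or_ge n a with h | h
  · exact Or.inl h
  · right
    by_contra hc
    have : ((b - a + 1).toNat : ℤ) = b - a + 1 := Int.toNat_of_nonneg (by omega)
    omega

/-- The homology of objects of `P^J(k[t, t⁻¹])` extends to `k[t]`. -/
theorem extab0 (Γ : Type u) [Group Γ] (T : Sys Γ) (D : T.Tr)
    (S J : Finset (Fin T.m)) (hJ : J ⊆ S) (hRet : T.RET) (k : Type u) [Ring k]
    (AA : Fn (Polynomial k) (T.P S) → Prop) (hA : RegCls0 AA)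
    (X : KK (LaurentPolynomial k) (T.P S)) (hX : T.PJ S J (LaurentPolynomial k) X) (n : ℤ) :
    ∃ (N : Fn (Polynomial k) (T.P S))
      (f : N ⟶ (rsF k (T.P S)).obj ((hq (LaurentPolynomial k) (T.P S) n).obj X)),
      AA N ∧ (∀ j ∈ J, D.Tac N j) ∧ IsLoc f := by
  obtain ⟨Z, hZ, ⟨ρ⟩⟩ := hRet S J hJ k X hX
  obtain ⟨m, ψ, hψ⟩ := denS k Γ T.Box (T.P S) Z Z hZ.per (ρ.r ≫ ρ.i)
  obtain ⟨θ, hθ⟩ := isloc k Γ T.Box (T.P S) n
  let H := hq (LaurentPolynomial k) (T.P S) n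
  let ρ' : Retract (H.obj X) (H.obj ((loc k (T.P S)).obj Z)) := ρ.map H
  have hN : AA ((hq (Polynomial k) (T.P S) n).obj Z) := haa0 hA Z hZ.per n
  have hac : ∀ j ∈ J, D.Tac ((hq (Polynomial k) (T.P S) n).obj Z) j := fun j hj =>
    (tacS Γ T D S j (Polynomial k) Z (hJ hj) hZ.per).1 (hZ.ac j hj) n
  have hψ' : (loc k (T.P S)).map ψ =
      (tn (m : ℤ)).app ((loc k (T.P S)).obj Z) ≫ ρ.r ≫ ρ.i := hψ
  have hcond : ∀ (U : (Bx (T.P S))ᵒᵖ) (x : ((hq (Polynomial k) (T.P S) n).obj Z).obj U),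
      (((θ.app Z).app U).hom ((((hq (Polynomial k) (T.P S) n).map ψ).app U).hom x) :
        (H.obj ((loc k (T.P S)).obj Z)).obj U) =
      (LaurentPolynomial.T (m : ℤ) : LaurentPolynomial k) •
        (((ρ'.r ≫ ρ'.i).app U).hom
          (((θ.app Z).app U).hom x : (H.obj ((loc k (T.P S)).obj Z)).obj U) :
          (H.obj ((loc k (T.P S)).obj Z)).obj U) := by
    intro U x
    have h1 := congrArg (fun f => ModuleCat.Hom.hom (NatTrans.app f U) x) (θ.naturality ψ)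
    have h2 : ((H.map ((loc k (T.P S)).map ψ)).app U).hom
        (((θ.app Z).app U).hom x : (H.obj ((loc k (T.P S)).obj Z)).obj U) =
        ((H.map ((tn (m : ℤ)).app ((loc k (T.P S)).obj Z) ≫ ρ.r ≫ ρ.i)).app U).hom
        (((θ.app Z).app U).hom x : (H.obj ((loc k (T.P S)).obj Z)).obj U) :=
      congrArg (fun f => ModuleCat.Hom.hom (NatTrans.app (H.map f) U)
        (((θ.app Z).app U).hom x : (H.obj ((loc k (T.P S)).obj Z)).obj U)) hψ'
    have h3 := hq_tn H76.zh (ρ.r ≫ ρ.i) (m : ℤ) n U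
      (((θ.app Z).app U).hom x : (H.obj ((loc k (T.P S)).obj Z)).obj U)
    have h4 : ((H.map (ρ.r ≫ ρ.i)).app U).hom
        (((θ.app Z).app U).hom x : (H.obj ((loc k (T.P S)).obj Z)).obj U) =
        ((ρ'.r ≫ ρ'.i).app U).hom
          (((θ.app Z).app U).hom x : (H.obj ((loc k (T.P S)).obj Z)).obj U) :=
      hq_comp ρ.r ρ.i n U _
    exact h1.trans (h2.trans (h3.trans (congrArg
      (fun w => (LaurentPolynomial.T (m : ℤ) : LaurentPolynomial k) • w) h4)))
  obtain ⟨f, hf⟩ := imloc k Γ T.Box (T.P S) _ _ _ (θ.app Z) ρ'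
    ((hq (Polynomial k) (T.P S) n).map ψ) m (hθ Z) hcond
  exact ⟨Limits.image ((hq (Polynomial k) (T.P S) n).map ψ), f, image hA _ hN hN,
    fun j hj => (HNN.tacim Γ T D S j (Polynomial k)).1 _ _ _ (hac j hj) (hac j hj), hf⟩

/-- Resolutions of functors which extend. -/
theorem extr0 (Γ : Type u) [Group Γ] (T : Sys Γ) (D : T.Tr)
    (S J : Finset (Fin T.m)) (hJ : J ⊆ S) (k : Type u) [Ring k] (n : ℤ)
    (R : KK (LaurentPolynomial k) (T.P S)) (N : Fn (Polynomial k) (T.P S))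
    (f : N ⟶ (rsF k (T.P S)).obj ((hq (LaurentPolynomial k) (T.P S) n).obj R))
    (hR : Per R) (hR0 : ∀ m, m ≠ n → IsZero ((hq (LaurentPolynomial k) (T.P S) m).obj R))
    (hN : Rsl N) (hac : ∀ j ∈ J, D.Tac N j) (hf : IsLoc f) :
    ∃ Y : KK (Polynomial k) (T.P S), T.PJ S J (Polynomial k) Y ∧
      Nonempty ((loc k (T.P S)).obj Y ≅ R) := by
  obtain ⟨Y, hY, ⟨e⟩, h0⟩ := resn0 n N hN
  have hPY : T.PJ S J (Polynomial k) Y := by
    refine ⟨hY, fun j hj => (tacS Γ T D S j (Polynomial k) Y (hJ hj) hY).2 fun m => ?_⟩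
    by_cases hm : m = n
    · subst hm
      exact (HNN.tacim Γ T D S j (Polynomial k)).2.1 _ _ ⟨e.symm⟩ (hac j hj)
    · exact (HNN.tacim Γ T D S j (Polynomial k)).2.2 _ (h0 m hm)
  have hlY : Per ((loc k (T.P S)).obj Y) := perlS k Γ T.Box (T.P S) Y hY
  have hz : ∀ m, m ≠ n → IsZero ((hq (LaurentPolynomial k) (T.P S) m).obj
      ((loc k (T.P S)).obj Y)) := by
    intro m hm
    obtain ⟨θ, hθ⟩ := isloc k Γ T.Box (T.P S) m
    exact (uniloc k Γ T.Box (T.P S)).2.1 _ _ (θ.app Y) (hθ Y) (h0 m hm)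
  obtain ⟨θ, hθ⟩ := isloc k Γ T.Box (T.P S) n
  have h1 := (uniloc k Γ T.Box (T.P S)).2.2 _ _ _ _ (θ.app Y) (hθ Y) e.symm
    (Iso.refl ((hq (LaurentPolynomial k) (T.P S) n).obj ((loc k (T.P S)).obj Y)))
  obtain ⟨φ⟩ := (uniloc k Γ T.Box (T.P S)).1 _ _ _ _ f h1 hf
  obtain ⟨g, hg⟩ := topS (LaurentPolynomial k) Γ T.Box (T.P S) ((loc k (T.P S)).obj Y) R n hlY hR
    (fun m hm => hz m (ne_of_gt hm)) hR0 φ.hom
  have hgi : IsIso g := by
    refine isoS (LaurentPolynomial k) Γ T.Box (T.P S) _ _ g hlY hR fun m => ?_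
    by_cases hm : m = n
    · subst hm
      rw [hg]
      infer_instance
    · exact isIso_of_zero _ (hz m hm) (hR0 m hm)
  exact ⟨Y, hPY, ⟨asIso g⟩⟩

/-- BASE. -/
theorem base : BaseStatement.{u} := by
  intro Γ _ T D i₀ hRet hcls J hJ0 k _ hk X hX
  obtain ⟨AA, hA, hAr⟩ := hcls (Polynomial k) (regP k hk)
  obtain ⟨AA', hA', hAr'⟩ := hcls (LaurentPolynomial k) (regL k hk)
  have hJ : J ⊆ Finset.univ := Finset.subset_univ J
  refine dev0 (fun X => ∃ Y : KK (Polynomial k) (T.P Finset.univ),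
      T.PJ Finset.univ J (Polynomial k) Y ∧
      Nonempty ((loc k (T.P Finset.univ)).obj Y ≅ X)) ?_ ?_ X hX.per ?_ ?_
  · intro Z hZ
    obtain ⟨Z0, h1⟩ := (inferInstance : HasZeroObject (KK (Polynomial k) (T.P Finset.univ))).zero
    exact ⟨_, Sys.pj_zero h1, ⟨((loc k (T.P Finset.univ)).map_isZero h1).iso hZ⟩⟩
  · intro Δ hΔ h1 h3
    exact H90.conex perS denS Γ T Finset.univ J k Δ hΔ h1 h3
  · intro n
    exact hAr' _ (haa0 hA' X hX.per n)
      ((tacS Γ T D Finset.univ i₀ (LaurentPolynomial k) X (hJ hJ0) hX.per).1 (hX.ac i₀ hJ0) n)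
  · intro n R hR hRX hR0
    obtain ⟨N, f, hN, hac, hf⟩ := extab0 Γ T D Finset.univ J hJ hRet k AA hA X hX n
    obtain ⟨e⟩ := hRX
    have h1 := (uniloc k Γ T.Box (T.P Finset.univ)).2.2 _ _ _ _ f hf (Iso.refl N) e.symm
    exact extr0 Γ T D Finset.univ J hJ k n R N _ hR hR0 (hAr _ hN (hac i₀ hJ0)) hac h1

end ER91

end Pool.Agent.NegK.NT
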